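import Pool.Agent.Helper87.MD.Goals

/-!
# MD-LAT: the lattice lemma
-/

set_option autoImplicit false

open Finset

namespace Pool.Agent.Helper24.MD

open Pool.Agent.Helper98.Lang Pool.Agent.Helper87.MD

theorem nd_le_int (x : ℝ) (b : ℤ) : nd x ≤ |x - b| := by
  unfold nd
  exact round_le x b

theorem nd_nonneg (x : ℝ) : 0 ≤ nd x := abs_nonneg _

/-- the core: an injection into a product of two intervals -/
theorem core (θ η : ℝ) (X w : ℕ) (hη : 0 < η) (hw1 : 1 ≤ w) (hw : nd ((w : ℝ) * θ) ≤ 2 * η)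
    (hmin : ∀ u : ℕ, 1 ≤ u → nd ((u : ℝ) * θ) ≤ 2 * η → w ≤ u) (hρ : 0 < nd ((w : ℝ) * θ)) :
    ((((Icc 1 X).filter (fun x : ℕ => nd ((x : ℝ) * θ) ≤ η)).card : ℝ) ≤ X / w + 1) ∧
    (((Icc 1 X).filter (fun x : ℕ => nd ((x : ℝ) * θ) ≤ η)).card : ℝ)
      ≤ (2 * nd ((w : ℝ) * θ) * X + 1) * (2 * η / nd ((w : ℝ) * θ) + 1) := by
  classical
  set ρ := nd ((w : ℝ) * θ) with hρd
  have hw0 : (0 : ℝ) < w := by exact_mod_cast hw1
  -- differences
  have hdiff : ∀ x y : ℕ, x < y → nd ((x : ℝ) * θ) ≤ η → nd ((y : ℝ) * θ) ≤ η → w ≤ y - x := by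
    intro x y hxy hx hy
    refine hmin (y - x) (by omega) ?_
    have h1 := nd_le_int (((y - x : ℕ) : ℝ) * θ) (round ((y : ℝ) * θ) - round ((x : ℝ) * θ))
    refine h1.trans ?_
    rw [Nat.cast_sub hxy.le]
    push_cast
    have h2 : ((y : ℝ) - x) * θ - ((round ((y : ℝ) * θ) : ℝ) - round ((x : ℝ) * θ)) =
        ((y : ℝ) * θ - round ((y : ℝ) * θ)) - ((x : ℝ) * θ - round ((x : ℝ) * θ)) := by ring
    rw [h2]
    refine (abs_sub _ _).trans ?_
    unfold nd at hx hy
    linarith
  constructor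
  · -- the map x ↦ x / w
    have h1 : ((Icc 1 X).filter (fun x : ℕ => nd ((x : ℝ) * θ) ≤ η)).card ≤
        (range (X / w + 1)).card := by
      refine Finset.card_le_card_of_injOn (fun x => x / w) ?_ ?_
      · intro x hx
        simp only [coe_filter, mem_Icc, Set.mem_setOf_eq] at hx
        simp only [coe_range, Set.mem_Iio]
        exact Nat.lt_succ_of_le (Nat.div_le_div_right hx.1.2)
      · have key : ∀ x y : ℕ, x < y → nd ((x : ℝ) * θ) ≤ η → nd ((y : ℝ) * θ) ≤ η →
            x / w = y / w → False := by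
          intro x y hxy hx hy he
          have h := hdiff x y hxy hx hy
          have h3 := Nat.div_add_mod x w
          have h4 := Nat.div_add_mod y w
          have h5 := Nat.mod_lt y hw1
          rw [he] at h3
          omega
        intro x hx y hy he
        simp only [coe_filter, mem_Icc, Set.mem_setOf_eq] at hx hy
        simp only at he
        rcases lt_trichotomy x y with h | h | h
        · exact (key x y h hx.2 hy.2 he).elim
        · exact h
        · exact (key y x h hy.2 hx.2 he.symm).elim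
    rw [card_range] at h1
    have h2 : (((X / w : ℕ) : ℝ)) ≤ (X : ℝ) / w := Nat.cast_div_le
    have h3 : ((((Icc 1 X).filter (fun x : ℕ => nd ((x : ℝ) * θ) ≤ η)).card : ℕ) : ℝ) ≤
        ((X / w + 1 : ℕ) : ℝ) := by exact_mod_cast h1
    push_cast at h3
    linarith
  · -- the map x ↦ (⌊2 ρ x⌋, ⌊(r x + η) / ρ⌋)
    have h1 : ((Icc 1 X).filter (fun x : ℕ => nd ((x : ℝ) * θ) ≤ η)).card ≤
        ((range (⌊2 * ρ * X⌋₊ + 1)) ×ˢ (range (⌊2 * η / ρ⌋₊ + 1))).card := by
      refine Finset.card_le_card_of_injOn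
        (fun x => (⌊2 * ρ * (x : ℝ)⌋₊, ⌊((x : ℝ) * θ - round ((x : ℝ) * θ) + η) / ρ⌋₊)) ?_ ?_
      · intro x hx
        simp only [coe_filter, mem_Icc, Set.mem_setOf_eq] at hx
        simp only [coe_product, coe_range, Set.mem_prod, Set.mem_Iio]
        have hxX : (x : ℝ) ≤ X := by exact_mod_cast hx.1.2
        refine ⟨Nat.lt_succ_of_le (Nat.floor_le_floor ?_), Nat.lt_succ_of_le
          (Nat.floor_le_floor ?_)⟩
        · exact mul_le_mul_of_nonneg_left hxX (by positivity)
        · refine div_le_div_of_nonneg_right ?_ hρ.le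
          have h := hx.2
          unfold nd at h
          have := (abs_le.1 h).2
          linarith
      · have key : ∀ x y : ℕ, x < y → nd ((x : ℝ) * θ) ≤ η → nd ((y : ℝ) * θ) ≤ η →
            ⌊2 * ρ * (x : ℝ)⌋₊ = ⌊2 * ρ * (y : ℝ)⌋₊ →
            ⌊((x : ℝ) * θ - round ((x : ℝ) * θ) + η) / ρ⌋₊ =
              ⌊((y : ℝ) * θ - round ((y : ℝ) * θ) + η) / ρ⌋₊ → False := by
          intro x y hxy hx hy he1 he2
          have hwu := hdiff x y hxy hx hy
          have hxy' : (x : ℝ) < y := by exact_mod_cast hxy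
          have hwu' : (w : ℝ) ≤ y - x := by
            have : ((w : ℕ) : ℝ) ≤ ((y - x : ℕ) : ℝ) := by exact_mod_cast hwu
            rwa [Nat.cast_sub hxy.le] at this
          -- u ρ < 1/2
          have hu : 2 * ρ * ((y : ℝ) - x) < 1 := by
            have a1 : 2 * ρ * (y : ℝ) < ⌊2 * ρ * (y : ℝ)⌋₊ + 1 := Nat.lt_floor_add_one _
            have a2 : (⌊2 * ρ * (x : ℝ)⌋₊ : ℝ) ≤ 2 * ρ * x := Nat.floor_le (by positivity)
            rw [he1] at a2
            linarith
          set rx := (x : ℝ) * θ - round ((x : ℝ) * θ) with hrx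
          set ry := (y : ℝ) * θ - round ((y : ℝ) * θ) with hry
          have hx1 := (abs_le.1 (show |rx| ≤ η from hx)).1
          have hy1 := (abs_le.1 (show |ry| ≤ η from hy)).1
          have hτ : |ry - rx| < ρ := by
            have a1 : (rx + η) / ρ < ⌊(rx + η) / ρ⌋₊ + 1 := Nat.lt_floor_add_one _
            have a2 : (⌊(rx + η) / ρ⌋₊ : ℝ) ≤ (rx + η) / ρ :=
              Nat.floor_le (div_nonneg (by linarith) hρ.le)
            have b1 : (ry + η) / ρ < ⌊(ry + η) / ρ⌋₊ + 1 := Nat.lt_floor_add_one _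
            have b2 : (⌊(ry + η) / ρ⌋₊ : ℝ) ≤ (ry + η) / ρ :=
              Nat.floor_le (div_nonneg (by linarith) hρ.le)
            rw [he2] at a1 a2
            have c1 : (rx + η) / ρ < (ry + η) / ρ + 1 := by linarith
            have c2 : (ry + η) / ρ < (rx + η) / ρ + 1 := by linarith
            rw [div_add_one hρ.ne', div_lt_div_iff_of_pos_right hρ] at c1 c2
            rw [abs_lt]
            constructor <;> linarith
          -- the integer
          set a : ℤ := round ((w : ℝ) * θ) with ha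
          set b : ℤ := round ((y : ℝ) * θ) - round ((x : ℝ) * θ) with hb
          have hbr : (b : ℝ) = round ((y : ℝ) * θ) - round ((x : ℝ) * θ) := by
            rw [hb]; push_cast; ring
          set n : ℤ := (w : ℤ) * b - ((y : ℤ) - x) * a with hn
          have hnr : (n : ℝ) = ((y : ℝ) - x) * ((w : ℝ) * θ - a) - w * (ry - rx) := by
            rw [hn, hrx, hry]
            push_cast
            rw [hbr]
            ring
          have hρ' : |(w : ℝ) * θ - a| = ρ := rfl
          have hupos : 0 < (y : ℝ) - x := by linarith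
          have e1 : |((y : ℝ) - x) * ((w : ℝ) * θ - a)| = (y - x) * ρ := by
            rw [abs_mul, hρ', abs_of_pos hupos]
          have e2 : |(w : ℝ) * (ry - rx)| < (y - x) * ρ := by
            rw [abs_mul, abs_of_pos hw0]
            calc (w : ℝ) * |ry - rx| < w * ρ := mul_lt_mul_of_pos_left hτ hw0
              _ ≤ (y - x) * ρ := mul_le_mul_of_nonneg_right hwu' hρ.le
          have hn0 : n ≠ 0 := by
            intro h0
            rw [h0, Int.cast_zero] at hnr
            have : ((y : ℝ) - x) * ((w : ℝ) * θ - a) = w * (ry - rx) := by linarith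
            rw [this] at e1
            linarith
          have hn1 : (1 : ℝ) ≤ |(n : ℝ)| := by
            have : (1 : ℤ) ≤ |n| := Int.one_le_abs hn0
            exact_mod_cast this
          have hn2 : |(n : ℝ)| < 2 * ρ * (y - x) := by
            rw [hnr]
            refine (abs_sub _ _).trans_lt ?_
            rw [e1]
            linarith
          linarith
        intro x hx y hy he
        simp only [coe_filter, mem_Icc, Set.mem_setOf_eq] at hx hy
        simp only [Prod.mk.injEq] at he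
        rcases lt_trichotomy x y with h | h | h
        · exact (key x y h hx.2 hy.2 he.1 he.2).elim
        · exact h
        · exact (key y x h hy.2 hx.2 he.1.symm he.2.symm).elim
    rw [card_product, card_range, card_range] at h1
    have h2 : ((((Icc 1 X).filter (fun x : ℕ => nd ((x : ℝ) * θ) ≤ η)).card : ℕ) : ℝ) ≤
        (((⌊2 * ρ * X⌋₊ + 1) * (⌊2 * η / ρ⌋₊ + 1) : ℕ) : ℝ) := by exact_mod_cast h1
    refine h2.trans ?_
    push_cast
    have h3 : (⌊2 * ρ * X⌋₊ : ℝ) ≤ 2 * ρ * X := Nat.floor_le (by positivity)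
    have h4 : (⌊2 * η / ρ⌋₊ : ℝ) ≤ 2 * η / ρ := Nat.floor_le (by positivity)
    gcongr

theorem lat : LatStmt := by
  intro ξ hR δ hδ
  obtain ⟨c₁, hc₁, hroth⟩ := hR δ hδ
  refine ⟨8 + 3 / √c₁, by positivity, ?_⟩
  intro s X η hs hX hη
  classical
  set N := ((Icc 1 X).filter (fun x : ℕ => nd ((x : ℝ) * (s * ξ)) ≤ η)).card with hN
  have hs0 : (0 : ℝ) < s := by exact_mod_cast hs
  have hX0 : (0 : ℝ) < X := by exact_mod_cast hX
  set Z : ℝ := η * ((s : ℝ) * X) ^ (1 + δ) with hZ
  have hZ0 : 0 < Z := by positivity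
  rcases Finset.eq_empty_or_nonempty
      ((Icc 1 X).filter (fun x : ℕ => nd ((x : ℝ) * (s * ξ)) ≤ η)) with h0 | ⟨x₀, hx₀⟩
  · rw [hN, h0]
    simp only [card_empty, Nat.cast_zero]
    positivity
  · rw [mem_filter, mem_Icc] at hx₀
    have hex : ∃ w : ℕ, 1 ≤ w ∧ nd ((w : ℝ) * (s * ξ)) ≤ 2 * η :=
      ⟨x₀, hx₀.1.1, by linarith [hx₀.2]⟩
    set w := Nat.find hex with hwd
    obtain ⟨hw1, hw2⟩ := Nat.find_spec hex
    have hwmin : ∀ u : ℕ, 1 ≤ u → nd ((u : ℝ) * (s * ξ)) ≤ 2 * η → w ≤ u := fun u h1 h2 =>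
      Nat.find_min' hex ⟨h1, h2⟩
    have hwX : w ≤ X := (hwmin x₀ hx₀.1.1 (by linarith [hx₀.2])).trans hx₀.1.2
    have hw0 : (0 : ℝ) < w := by exact_mod_cast hw1
    have hwX' : (w : ℝ) ≤ X := by exact_mod_cast hwX
    -- Roth's theorem for w s and x₀ s
    have roth : ∀ x : ℕ, 1 ≤ x → x ≤ X →
        c₁ ≤ nd ((x : ℝ) * (s * ξ)) * ((x : ℝ) * s) ^ (1 + δ) := by
      intro x hx1 _
      have hx0 : (0 : ℝ) < x := by exact_mod_cast hx1
      have h := hroth (x * s) (Nat.mul_pos hx1 hs)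
      push_cast at h
      rw [Real.rpow_neg (by positivity), mul_assoc (x : ℝ) (s : ℝ) ξ] at h
      have hp : 0 < ((x : ℝ) * s) ^ (1 + δ) := by positivity
      rw [← div_eq_mul_inv, div_le_iff₀ hp] at h
      exact h
    have hρ : 0 < nd ((w : ℝ) * (s * ξ)) := by
      have h := roth w hw1 hwX
      by_contra hcon
      have h1 : nd ((w : ℝ) * (s * ξ)) = 0 := le_antisymm (not_lt.1 hcon) (nd_nonneg _)
      rw [h1, zero_mul] at h
      linarith
    obtain ⟨hA, hB⟩ := core (s * ξ) η X w hη hw1 hw2 hwmin hρ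
    set ρ := nd ((w : ℝ) * (s * ξ)) with hρd
    -- 1 ≤ Z / c₁
    have hone : 1 ≤ Z / c₁ := by
      rw [one_le_div hc₁]
      refine (roth x₀ hx₀.1.1 hx₀.1.2).trans ?_
      rw [hZ]
      have hx0 : (0 : ℝ) < x₀ := by exact_mod_cast hx₀.1.1
      have hxX : (x₀ : ℝ) ≤ X := by exact_mod_cast hx₀.1.2
      refine mul_le_mul hx₀.2 ?_ (by positivity) hη.le
      refine Real.rpow_le_rpow (by positivity) ?_ (by linarith)
      nlinarith
    -- X η / (w ρ) ≤ Z / c₁
    have hprod : (X : ℝ) / w * (η / ρ) ≤ Z / c₁ := by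
      have h := roth w hw1 hwX
      have h1 : ((w : ℝ) * s) ^ (1 + δ) * X ≤ ((s : ℝ) * X) ^ (1 + δ) * w := by
        rw [Real.mul_rpow hw0.le hs0.le, Real.mul_rpow hs0.le hX0.le,
          Real.rpow_add hw0, Real.rpow_add hX0, Real.rpow_one, Real.rpow_one]
        have h2 : (w : ℝ) ^ δ ≤ (X : ℝ) ^ δ := Real.rpow_le_rpow hw0.le hwX' hδ.le
        have h3 : 0 < (s : ℝ) ^ (1 + δ) := by positivity
        have h4 : (w : ℝ) ^ δ * ((s : ℝ) ^ (1 + δ) * w * X) ≤
            (X : ℝ) ^ δ * ((s : ℝ) ^ (1 + δ) * w * X) :=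
          mul_le_mul_of_nonneg_right h2 (by positivity)
        linarith
      rw [div_mul_div_comm, div_le_div_iff₀ (by positivity) hc₁]
      -- X η c₁ ≤ Z (w ρ)
      calc (X : ℝ) * η * c₁ ≤ X * η * (ρ * ((w : ℝ) * s) ^ (1 + δ)) :=
            mul_le_mul_of_nonneg_left h (by positivity)
        _ = η * ρ * (((w : ℝ) * s) ^ (1 + δ) * X) := by ring
        _ ≤ η * ρ * (((s : ℝ) * X) ^ (1 + δ) * w) :=
            mul_le_mul_of_nonneg_left h1 (by positivity)
        _ = Z * (w * ρ) := by rw [hZ]; ring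
    -- both cases
    have hsq1 : 1 ≤ √(Z / c₁) := by
      rw [← Real.sqrt_one]
      exact Real.sqrt_le_sqrt hone
    have hsq2 : √(Z / c₁) * √(Z / c₁) = Z / c₁ := Real.mul_self_sqrt (by positivity)
    have hmain : (N : ℝ) ≤ 1 + 8 * (η * X) + 2 * √(Z / c₁) := by
      have hρ2 : ρ ≤ 2 * η := hw2
      rcases le_total ((X : ℝ) / w) (2 * η / ρ) with hc | hc
      · -- X / w ≤ 2 √(Z / c₁)
        have h1 : (X : ℝ) / w ≤ 2 * √(Z / c₁) := by
          refine abs_le_of_sq_le_sq' ?_ (by positivity) |>.2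
          have h2 : ((X : ℝ) / w) ^ 2 ≤ X / w * (2 * η / ρ) := by
            rw [sq]
            exact mul_le_mul_of_nonneg_left hc (by positivity)
          have h3 : (X : ℝ) / w * (2 * η / ρ) = 2 * (X / w * (η / ρ)) := by ring
          have h4 : (2 * √(Z / c₁)) ^ 2 = 4 * (Z / c₁) := by
            rw [mul_pow, sq (√(Z / c₁)), hsq2]; norm_num
          rw [h4]
          have : 0 < Z / c₁ := by positivity
          linarith
        have h5 : 0 < η * X := by positivity
        linarith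
      · have h1 : 2 * η / ρ ≤ 2 * √(Z / c₁) := by
          refine abs_le_of_sq_le_sq' ?_ (by positivity) |>.2
          have h2 : (2 * η / ρ) ^ 2 ≤ X / w * (2 * η / ρ) := by
            rw [sq]
            exact mul_le_mul_of_nonneg_right hc (by positivity)
          have h3 : (X : ℝ) / w * (2 * η / ρ) = 2 * (X / w * (η / ρ)) := by ring
          have h4 : (2 * √(Z / c₁)) ^ 2 = 4 * (Z / c₁) := by
            rw [mul_pow, sq (√(Z / c₁)), hsq2]; norm_num
          rw [h4]
          have : 0 < Z / c₁ := by positivity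
          linarith
        have h6 : (2 * ρ * X + 1) * (2 * η / ρ + 1) = 4 * (η * X) + 2 * ρ * X + 2 * η / ρ + 1 := by
          field_simp
          ring
        have h7 : ρ * X ≤ 2 * η * X := mul_le_mul_of_nonneg_right hρ2 hX0.le
        rw [h6] at hB
        nlinarith
    rw [← Real.sqrt_eq_rpow]
    have hdiv : √(Z / c₁) = √Z / √c₁ := Real.sqrt_div hZ0.le c₁
    have hsc : 0 < √c₁ := Real.sqrt_pos.2 hc₁
    have hsZ : 0 < √Z := Real.sqrt_pos.2 hZ0
    have h8 : (8 + 3 / √c₁) * (η * X + √Z) = 8 * (η * X) + 3 * (√Z / √c₁) + 8 * √Z +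
        3 / √c₁ * (η * X) := by ring
    rw [h8, ← hdiv]
    have h9 : 0 ≤ 3 / √c₁ * (η * X) := by positivity
    linarith

end Pool.Agent.Helper24.MD
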